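import Mathlib

/-!
Compound matrices (the formula of Cauchy and Binet is taken over from `TH461.SST.CB`).
-/

namespace Q170.DetIneq

open Finset

/-- the `k`-element subsets of `Fin n` -/
abbrev Ix (n k : ℕ) := {Q : Finset (Fin n) // Q.card = k}

/-- the `k`-th compound matrix -/
def cpd {R : Type*} [CommRing R] {n : ℕ} (k : ℕ) (T : Matrix (Fin n) (Fin n) R) :
    Matrix (Ix n k) (Ix n k) R :=
  fun I J => (T.submatrix (I.1.orderEmbOfFin I.2) (J.1.orderEmbOfFin J.2)).det

theorem expand {R : Type} [CommRing R] (d n : ℕ) (A : Matrix (Fin d) (Fin n) R)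
    (X : Matrix (Fin n) (Fin d) R) :
    (A * X).det = ∑ f : Fin d → Fin n, (∏ i, A i (f i)) * (X.submatrix f id).det := by
  classical
  let D := (Matrix.detRowAlternating : (Fin d → R) [⋀^(Fin d)]→ₗ[R] R).toMultilinearMap
  have h1 : (A * X).det = D (fun i => ∑ l, A i l • X l) := by
    show (A * X).det = Matrix.det (fun i => ∑ l, A i l • X l)
    congr 1
    ext i j
    simp [Matrix.mul_apply, Finset.sum_apply]
  rw [h1, D.map_sum]
  apply Finset.sum_congr rfl
  intro f _
  rw [D.map_smul_univ]
  rfl

theorem cbR {R : Type} [CommRing R] (d n : ℕ) (A : Matrix (Fin d) (Fin n) R)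
    (X : Matrix (Fin n) (Fin d) R) :
    (A * X).det = ∑ Q : {Q : Finset (Fin n) // Q.card = d},
      (A.submatrix id (Q.1.orderEmbOfFin Q.2)).det * (X.submatrix (Q.1.orderEmbOfFin Q.2) id).det := by
  classical
  rw [expand]
  have h0 : ∑ f : Fin d → Fin n, (∏ i, A i (f i)) * (X.submatrix f id).det
      = ∑ f ∈ Finset.univ.filter (fun f : Fin d → Fin n => Function.Injective f),
        (∏ i, A i (f i)) * (X.submatrix f id).det := by
    symm
    apply Finset.sum_subset (Finset.filter_subset _ _)
    intro f _ hf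
    simp only [Finset.mem_filter, Finset.mem_univ, true_and] at hf
    unfold Function.Injective at hf
    push Not at hf
    obtain ⟨a, b, hab, hne⟩ := hf
    rw [Matrix.det_zero_of_row_eq hne, mul_zero]
    ext j
    simp [Matrix.submatrix_apply, hab]
  rw [h0]
  have himg : ∀ f : Fin d → Fin n, Function.Injective f → (Finset.univ.image f).card = d := by
    intro f hf
    rw [Finset.card_image_of_injective _ hf]; simp
  rw [show (∑ Q : {Q : Finset (Fin n) // Q.card = d},
      (A.submatrix id (Q.1.orderEmbOfFin Q.2)).det * (X.submatrix (Q.1.orderEmbOfFin Q.2) id).det)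
      = ∑ Q : {Q : Finset (Fin n) // Q.card = d}, ∑ σ : Equiv.Perm (Fin d),
        (∏ i, A i (Q.1.orderEmbOfFin Q.2 (σ i))) *
          (X.submatrix (fun i => Q.1.orderEmbOfFin Q.2 (σ i)) id).det from ?_]
  · rw [← Finset.sum_product' (Finset.univ : Finset {Q : Finset (Fin n) // Q.card = d})
      (Finset.univ : Finset (Equiv.Perm (Fin d)))
      (fun Q σ => (∏ i, A i (Q.1.orderEmbOfFin Q.2 (σ i))) *
          (X.submatrix (fun i => Q.1.orderEmbOfFin Q.2 (σ i)) id).det)]
    symm
    refine Finset.sum_bij (fun p _ => fun i => p.1.1.orderEmbOfFin p.1.2 (p.2 i)) ?_ ?_ ?_ ?_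
    · intro p _
      simp only [Finset.mem_filter, Finset.mem_univ, true_and]
      intro a b hab
      exact p.2.injective ((p.1.1.orderEmbOfFin p.1.2).injective hab)
    · intro p _ q _ hpq
      have hr : ∀ p : {Q : Finset (Fin n) // Q.card = d} × Equiv.Perm (Fin d),
          Finset.univ.image (fun i => p.1.1.orderEmbOfFin p.1.2 (p.2 i)) = p.1.1 := by
        intro p
        ext x
        simp only [Finset.mem_image, Finset.mem_univ, true_and]
        constructor
        · rintro ⟨i, rfl⟩
          exact Finset.orderEmbOfFin_mem _ _ _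
        · intro hx
          refine ⟨p.2.symm ((p.1.1.orderIsoOfFin p.1.2).symm ⟨x, hx⟩), ?_⟩
          rw [Equiv.apply_symm_apply, ← Finset.coe_orderIsoOfFin_apply]
          simp
      have h1 : p.1 = q.1 := by
        apply Subtype.ext
        rw [← hr p, ← hr q, hpq]
      obtain ⟨P, σ⟩ := p
      obtain ⟨P', σ'⟩ := q
      simp only at h1
      subst h1
      congr 1
      ext i
      have := congrFun hpq i
      simp only at this
      exact congrArg _ ((P.1.orderEmbOfFin P.2).injective this)
    · intro f hf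
      simp only [Finset.mem_filter, Finset.mem_univ, true_and] at hf
      set Q := Finset.univ.image f with hQ
      have hc : Q.card = d := himg f hf
      let g : Fin d → Fin d := fun i => (Q.orderIsoOfFin hc).symm
        ⟨f i, Finset.mem_image_of_mem _ (Finset.mem_univ i)⟩
      have hg : Function.Injective g := by
        intro a b hab
        have := (Q.orderIsoOfFin hc).symm.injective hab
        exact hf (Subtype.mk.inj this)
      refine ⟨(⟨Q, hc⟩, Equiv.ofBijective g (Finite.injective_iff_bijective.1 hg)),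
        Finset.mem_product.2 ⟨Finset.mem_univ _, Finset.mem_univ _⟩, ?_⟩
      ext i
      simp only [Equiv.ofBijective_apply]
      rw [← Finset.coe_orderIsoOfFin_apply]
      simp [g]
    · intro p _
      rfl
  · apply Finset.sum_congr rfl
    intro Q _
    have h2 : ∀ σ : Equiv.Perm (Fin d), (X.submatrix (fun i => Q.1.orderEmbOfFin Q.2 (σ i)) id).det
        = ((Equiv.Perm.sign σ : ℤ) : R) * (X.submatrix (Q.1.orderEmbOfFin Q.2) id).det := by
      intro σ
      have := Matrix.det_permute σ (X.submatrix (Q.1.orderEmbOfFin Q.2) id)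
      rw [← this]
      rfl
    simp_rw [h2]
    rw [← Matrix.det_transpose (A.submatrix id (Q.1.orderEmbOfFin Q.2)), Matrix.det_apply',
      Finset.sum_mul]
    apply Finset.sum_congr rfl
    intro σ _
    simp only [Matrix.transpose_apply, Matrix.submatrix_apply, id]
    ring


lemma cpd_mul {R : Type} [CommRing R] {n k : ℕ} (S T : Matrix (Fin n) (Fin n) R) :
    cpd k (S * T) = cpd k S * cpd k T := by
  ext I J
  have h := cbR k n (S.submatrix (I.1.orderEmbOfFin I.2) id)
    (T.submatrix id (J.1.orderEmbOfFin J.2))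
  have e1 : S.submatrix (I.1.orderEmbOfFin I.2) id * T.submatrix id (J.1.orderEmbOfFin J.2) =
      (S * T).submatrix (I.1.orderEmbOfFin I.2) (J.1.orderEmbOfFin J.2) := by
    ext a b
    simp [Matrix.mul_apply]
  rw [e1] at h
  exact h

/-- products over index sets -/
noncomputable def lamP {R : Type*} [CommRing R] {n k : ℕ} (lam : Fin n → R) (J : Ix n k) : R :=
  ∏ j ∈ J.1, lam j

lemma lamP_eq {R : Type*} [CommRing R] {n k : ℕ} (lam : Fin n → R) (J : Ix n k) :
    ∏ i : Fin k, lam (J.1.orderEmbOfFin J.2 i) = lamP lam J := by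
  unfold lamP
  conv_rhs => rw [← Finset.map_orderEmbOfFin_univ J.1 J.2]
  rw [Finset.prod_map]
  rfl

lemma cpd_diag {R : Type*} [CommRing R] {n k : ℕ} (lam : Fin n → R) :
    cpd k (Matrix.diagonal lam) = Matrix.diagonal (fun J => lamP lam J) := by
  ext I J
  by_cases h : I = J
  · subst h
    rw [Matrix.diagonal_apply_eq]
    simp only [cpd]
    rw [Matrix.submatrix_diagonal _ _ (I.1.orderEmbOfFin I.2).injective, Matrix.det_diagonal]
    exact lamP_eq lam I
  · rw [Matrix.diagonal_apply_ne _ h]
    simp only [cpd]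
    have : ∃ i ∈ I.1, i ∉ J.1 := by
      by_contra hcon
      push Not at hcon
      apply h
      apply Subtype.ext
      exact Finset.eq_of_subset_of_card_le hcon (by rw [I.2, J.2])
    obtain ⟨i, hi, hiJ⟩ := this
    have h2 : i ∈ Set.range (I.1.orderEmbOfFin I.2) := by
      rw [Finset.range_orderEmbOfFin]
      exact hi
    obtain ⟨a, ha⟩ := h2
    apply Matrix.det_eq_zero_of_row_eq_zero a
    intro j
    rw [Matrix.submatrix_apply, ha]
    apply Matrix.diagonal_apply_ne
    intro h3
    apply hiJ
    rw [h3]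
    exact Finset.orderEmbOfFin_mem J.1 J.2 j

lemma cpd_one {R : Type*} [CommRing R] {n k : ℕ} :
    cpd k (1 : Matrix (Fin n) (Fin n) R) = 1 := by
  rw [← Matrix.diagonal_one, cpd_diag]
  simp [lamP]

lemma cpd_star {n k : ℕ} (T : Matrix (Fin n) (Fin n) ℂ) :
    cpd k T.conjTranspose = (cpd k T).conjTranspose := by
  ext I J
  rw [Matrix.conjTranspose_apply]
  unfold cpd
  rw [← Matrix.det_conjTranspose]
  congr 1

end Q170.DetIneq
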