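import Pool.Agent.Q170.DetIneq.Mat
import Pool.Agent.Q170.DetIneq.Comp

/-!
Log-majorization of the eigenvalues.
-/

namespace Q170.DetIneq

open scoped MatrixOrder Matrix.Norms.L2Operator ComplexOrder
open Matrix

section scal

variable {A : Type*} [CStarAlgebra A] [PartialOrder A] [StarOrderedRing A]

lemma smul_rpow {a : A} (ha : 0 ≤ a) {t y : ℝ} (ht : 0 ≤ t) (hy : 0 < y) :
    (t • a) ^ y = t ^ y • a ^ y := by
  have hta : 0 ≤ t • a := smul_nonneg ht ha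
  have hc : Continuous (fun x : ℝ => x ^ y) := Real.continuous_rpow_const hy.le
  rw [CFC.rpow_eq_cfc_real hta, CFC.rpow_eq_cfc_real ha,
    ← cfc_comp_smul t (fun x : ℝ => x ^ y) a hc.continuousOn ha.isSelfAdjoint,
    ← cfc_const_mul (t ^ y) (fun x : ℝ => x ^ y) a hc.continuousOn]
  apply cfc_congr
  intro x hx
  have hx0 : 0 ≤ x := spectrum_nonneg_of_nonneg ha hx
  simp only [smul_eq_mul]
  rw [Real.mul_rpow ht hx0]

lemma op_ineq_smul [Nontrivial A] {G X : A} (hG : IsStrictlyPositive G)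
    (hX : IsStrictlyPositive X) {s μ : ℝ} (hs0 : 0 < s) (hs1 : s ≤ 1) (hμ : 0 < μ)
    (h : (G * X * G) ^ s ≤ μ • X) : G ^ (2 * s) ≤ μ • X ^ (1 - s) := by
  set t : ℝ := μ ^ (-(1 / (2 * s))) with ht
  have ht0 : 0 < t := Real.rpow_pos_of_pos hμ _
  have htμ : t ^ (2 * s) = μ⁻¹ := by
    rw [ht, ← Real.rpow_mul hμ.le]
    have : -(1 / (2 * s)) * (2 * s) = -1 := by field_simp
    rw [this, Real.rpow_neg_one]
  have htt : (t * t) ^ s = μ⁻¹ := by
    rw [← htμ, Real.rpow_mul ht0.le]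
    norm_num
    rw [sq]
  have hGsa : IsSelfAdjoint G := IsSelfAdjoint.of_nonneg hG.nonneg
  have hGXG : 0 ≤ G * X * G := by
    have := star_left_conjugate_nonneg hX.nonneg G
    rwa [hGsa.star_eq] at this
  have htG : IsStrictlyPositive (t • G) := by
    rw [IsStrictlyPositive.iff_of_unital]
    refine ⟨smul_nonneg ht0.le hG.nonneg, ?_⟩
    have : t • G = (Units.mk0 t ht0.ne') • G := rfl
    rw [this]
    exact hG.isUnit.smul _
  have h1 : ((t • G) * X * (t • G)) ^ s ≤ X := by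
    have e1 : (t • G) * X * (t • G) = (t * t) • (G * X * G) := by
      rw [smul_mul_assoc, smul_mul_assoc, mul_smul_comm, smul_smul]
    rw [e1, smul_rpow hGXG (by positivity) hs0, htt]
    calc μ⁻¹ • (G * X * G) ^ s ≤ μ⁻¹ • (μ • X) := by
          apply smul_le_smul_of_nonneg_left h (by positivity)
      _ = X := by rw [smul_smul, inv_mul_cancel₀ hμ.ne', one_smul]
  have h2 := op_ineq htG hX hs0 hs1 h1
  rw [smul_rpow hG.nonneg ht0.le (by linarith), htμ] at h2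
  calc G ^ (2 * s) = μ • (μ⁻¹ • G ^ (2 * s)) := by
        rw [smul_smul, mul_inv_cancel₀ hμ.ne', one_smul]
    _ ≤ μ • X ^ (1 - s) := smul_le_smul_of_nonneg_left h2 hμ.le

end scal

section comp

variable {n : ℕ}

lemma lamP_cast {k : ℕ} (d : Fin n → ℝ) (J : Ix n k) :
    lamP (fun i => (d i : ℂ)) J = ((lamP d J : ℝ) : ℂ) := by
  unfold lamP
  push_cast
  rfl

lemma cpd_cd (k : ℕ) (V : Matrix (Fin n) (Fin n) ℂ) (d : Fin n → ℝ) :
    cpd k (cd V d) = cd (cpd k V) (fun J => lamP d J) := by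
  unfold cd
  rw [cpd_mul, cpd_mul, cpd_diag, cpd_star]
  simp only [lamP_cast]

lemma cpd_unitary {k : ℕ} {V : Matrix (Fin n) (Fin n) ℂ} (hV : Vᴴ * V = 1) :
    (cpd k V)ᴴ * cpd k V = 1 := by
  rw [← cpd_star, ← cpd_mul, hV, cpd_one]

lemma cpd_unitary' {k : ℕ} {V : Matrix (Fin n) (Fin n) ℂ} (hV : V * Vᴴ = 1) :
    cpd k V * (cpd k V)ᴴ = 1 := by
  rw [← cpd_star, ← cpd_mul, hV, cpd_one]

lemma lamP_pos {k : ℕ} {d : Fin n → ℝ} (h : ∀ i, 0 < d i) (J : Ix n k) : 0 < lamP d J :=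
  Finset.prod_pos fun i _ => h i

lemma cpd_posDef {Z : Matrix (Fin n) (Fin n) ℂ} (hZ : Z.PosDef) (k : ℕ) :
    (cpd k Z).PosDef := by
  obtain ⟨V, d, h1, h2, h3, rfl⟩ := exists_cd hZ
  rw [cpd_cd]
  exact cd_posDef (cpd_unitary' h2) (fun J => lamP_pos h3 J)

lemma cpd_rpow {Z : Matrix (Fin n) (Fin n) ℂ} (hZ : Z.PosDef) (k : ℕ) (q : ℝ) :
    cpd k (Z ^ q) = cpd k Z ^ q := by
  obtain ⟨V, d, h1, h2, h3, rfl⟩ := exists_cd hZ
  rw [cd_rpow h1 h2 h3, cpd_cd, cpd_cd, cd_rpow (cpd_unitary h1) (cpd_unitary' h2)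
    (fun J => lamP_pos h3 J)]
  congr 1
  ext J
  unfold lamP
  exact Real.finsetProd_rpow _ _ (fun i _ => (h3 i).le) q

end comp

section main

variable {n : ℕ}

lemma posDef_rpow {m : Type*} [Fintype m] [DecidableEq m] {Z : Matrix m m ℂ} (hZ : Z.PosDef)
    (q : ℝ) : (Z ^ q).PosDef := by
  obtain ⟨V, d, h1, h2, h3, rfl⟩ := exists_cd hZ
  rw [cd_rpow h1 h2 h3]
  exact cd_posDef h2 (fun i => Real.rpow_pos_of_pos (h3 i) q)

lemma posDef_conj {m : Type*} [Fintype m] [DecidableEq m] {Z W : Matrix m m ℂ} (hZ : Z.PosDef)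
    (hW : W.PosDef) : (W * Z * W).PosDef := by
  have h1 : (W * Z * W).PosSemidef := by
    have := hZ.posSemidef.mul_mul_conjTranspose_same W
    rwa [hW.1.eq] at this
  rw [h1.posDef_iff_det_ne_zero, det_mul, det_mul]
  have := hZ.det_pos.ne'
  have := hW.det_pos.ne'
  positivity

/-- the two matrices -/
noncomputable def PP (A B : Matrix (Fin n) (Fin n) ℂ) (s : ℝ) : Matrix (Fin n) (Fin n) ℂ :=
  A ^ (-1 : ℝ) * (B * (A * A) * B) ^ s * A ^ (-1 : ℝ)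

/-- the two matrices -/
noncomputable def QQ (A B : Matrix (Fin n) (Fin n) ℂ) (s : ℝ) : Matrix (Fin n) (Fin n) ℂ :=
  A ^ (s - 1) * B ^ (2 * s) * A ^ (s - 1)

lemma posDef_AA {m : Type*} [Fintype m] [DecidableEq m] {A : Matrix m m ℂ} (hA : A.PosDef) :
    (A * A).PosDef := by
  have := posDef_conj (PosDef.one (n := m) (R := ℂ)) hA
  rwa [mul_one] at this

lemma cpd_ineq {A B : Matrix (Fin n) (Fin n) ℂ} (hA : A.PosDef) (hB : B.PosDef) {s : ℝ}
    (hs0 : 0 < s) (hs1 : s ≤ 1) {k : ℕ} (hk : k ≤ n) {μ : ℝ} (hμ : 0 < μ)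
    (h : cpd k (PP A B s) ≤ μ • 1) : cpd k (QQ A B s) ≤ μ • 1 := by
  have hne : Nonempty (Ix n k) := by
    obtain ⟨Q, hQ⟩ := Finset.exists_subset_card_eq (s := (Finset.univ : Finset (Fin n)))
      (n := k) (by simpa using hk)
    exact ⟨⟨Q, hQ.2⟩⟩
  have hnt : Nontrivial (Matrix (Ix n k) (Ix n k) ℂ) := inferInstance
  set Ak := cpd k A with hAk
  set Bk := cpd k B with hBk
  have hA' : Ak.PosDef := cpd_posDef hA k
  have hB' : Bk.PosDef := cpd_posDef hB k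
  have hZ : (B * (A * A) * B).PosDef := posDef_conj (posDef_AA hA) hB
  have hP : cpd k (PP A B s) = Ak ^ (-1 : ℝ) * (Bk * (Ak * Ak) * Bk) ^ s * Ak ^ (-1 : ℝ) := by
    unfold PP
    rw [cpd_mul, cpd_mul, cpd_rpow hA, cpd_rpow hZ, cpd_mul, cpd_mul, cpd_mul]
  have hQ : cpd k (QQ A B s) = Ak ^ (s - 1) * Bk ^ (2 * s) * Ak ^ (s - 1) := by
    unfold QQ
    rw [cpd_mul, cpd_mul, cpd_rpow hA, cpd_rpow hB]
  have hAs : IsStrictlyPositive Ak := hA'.isStrictlyPositive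
  have hBs : IsStrictlyPositive Bk := hB'.isStrictlyPositive
  have hAAs : IsStrictlyPositive (Ak * Ak) := (posDef_AA hA').isStrictlyPositive
  have hAsa : star Ak = Ak := (IsSelfAdjoint.of_nonneg hAs.nonneg).star_eq
  have h1 : (Bk * (Ak * Ak) * Bk) ^ s ≤ μ • (Ak * Ak) := by
    rw [hP] at h
    have h2 := star_left_conjugate_le_conjugate h Ak
    rw [hAsa] at h2
    have e1 : Ak * Ak ^ (-1 : ℝ) = 1 := by
      have := CFC.rpow_mul_rpow_neg 1 hAs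
      rwa [CFC.rpow_one _ hAs.nonneg] at this
    have e2 : Ak ^ (-1 : ℝ) * Ak = 1 := by
      have := CFC.rpow_neg_mul_rpow 1 hAs
      rwa [CFC.rpow_one _ hAs.nonneg] at this
    calc (Bk * (Ak * Ak) * Bk) ^ s =
        (Ak * Ak ^ (-1 : ℝ)) * (Bk * (Ak * Ak) * Bk) ^ s * (Ak ^ (-1 : ℝ) * Ak) := by
          rw [e1, e2, one_mul, mul_one]
      _ = Ak * (Ak ^ (-1 : ℝ) * (Bk * (Ak * Ak) * Bk) ^ s * Ak ^ (-1 : ℝ)) * Ak := by
          noncomm_ring
      _ ≤ Ak * (μ • 1) * Ak := h2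
      _ = μ • (Ak * Ak) := by rw [mul_smul_comm, mul_one, smul_mul_assoc]
  have h2 := op_ineq_smul hBs hAAs hs0 hs1 hμ h1
  have h3 : (Ak * Ak) ^ (1 - s) = Ak ^ (1 - s) * Ak ^ (1 - s) := by
    have e1 : Ak * Ak = Ak ^ (2 : ℝ) := by
      have := CFC.rpow_natCast Ak 2 hAs.nonneg
      rw [← sq, ← this]
      norm_num
    rw [e1, CFC.rpow_rpow _ _ _ (by norm_num) hAs, ← CFC.rpow_add hAs.isUnit]
    congr 1
    ring
  rw [h3] at h2
  have h4 := star_left_conjugate_le_conjugate h2 (Ak ^ (s - 1))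
  rw [sa_rpow] at h4
  rw [hQ]
  refine h4.trans (le_of_eq ?_)
  have e1 : Ak ^ (s - 1) * Ak ^ (1 - s) = 1 := by
    rw [← CFC.rpow_add hAs.isUnit, ← CFC.rpow_zero Ak hAs.nonneg]
    congr 1
    ring
  have e2 : Ak ^ (1 - s) * Ak ^ (s - 1) = 1 := by
    rw [← CFC.rpow_add hAs.isUnit, ← CFC.rpow_zero Ak hAs.nonneg]
    congr 1
    ring
  calc Ak ^ (s - 1) * (μ • (Ak ^ (1 - s) * Ak ^ (1 - s))) * Ak ^ (s - 1)
      = μ • ((Ak ^ (s - 1) * Ak ^ (1 - s)) * (Ak ^ (1 - s) * Ak ^ (s - 1))) := by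
        rw [mul_smul_comm, smul_mul_assoc]
        congr 1
        noncomm_ring
    _ = μ • 1 := by rw [e1, e2, one_mul]

end main

end Q170.DetIneq
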