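import Pool.Agent.Q170.DetIneq.Comp

/-!
Weak log-majorization of the eigenvalues gives the inequality for the product of the `1 + x_i`.
-/

namespace Q170.DetIneq

open Finset

lemma abel (n : ℕ) (a d : ℕ → ℝ) (ha : ∀ i, i < n → 0 ≤ a i)
    (hanti : ∀ i, i + 1 < n → a (i + 1) ≤ a i) (hD : ∀ k, k ≤ n → 0 ≤ ∑ i ∈ range k, d i) :
    0 ≤ ∑ i ∈ range n, a i * d i := by
  have key : ∀ k, k < n → a k * ∑ i ∈ range (k + 1), d i ≤ ∑ i ∈ range (k + 1), a i * d i := by
    intro k
    induction k with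
    | zero => intro _; simp
    | succ k ih =>
      intro hk
      rw [sum_range_succ _ (k + 1), sum_range_succ (fun i => a i * d i) (k + 1)]
      have h1 := ih (by omega)
      have h2 := hanti k hk
      have h3 := hD (k + 1) (by omega)
      nlinarith [mul_le_mul_of_nonneg_right h2 h3]
  rcases Nat.eq_zero_or_pos n with h | h
  · subst h; simp
  · obtain ⟨m, rfl⟩ : ∃ m, n = m + 1 := ⟨n - 1, by omega⟩
    refine le_trans ?_ (key m (by omega))
    exact mul_nonneg (ha m (by omega)) (hD _ le_rfl)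

lemma log_ineq {x y : ℝ} (hx : 0 < x) (hy : 0 < y) :
    x / (1 + x) * (Real.log y - Real.log x) ≤ Real.log (1 + y) - Real.log (1 + x) := by
  have h1 := Real.geom_mean_le_arith_mean2_weighted (w₁ := 1 / (1 + x)) (w₂ := x / (1 + x))
    (p₁ := 1) (p₂ := y / x) (by positivity) (by positivity) (by norm_num) (by positivity)
    (by field_simp)
  rw [Real.one_rpow, one_mul] at h1
  have e : 1 / (1 + x) * 1 + x / (1 + x) * (y / x) = (1 + y) / (1 + x) := by
    field_simp
  rw [e] at h1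
  have h2 := Real.log_le_log (by positivity) h1
  rw [Real.log_rpow (by positivity), Real.log_div hy.ne' hx.ne',
    Real.log_div (by positivity) (by positivity)] at h2
  exact h2

lemma sorted_case (n : ℕ) (X Y : ℕ → ℝ) (hX : ∀ i, 0 < X i) (hY : ∀ i, 0 < Y i)
    (hXa : ∀ i, i + 1 < n → X (i + 1) ≤ X i)
    (h : ∀ k, k ≤ n → ∏ i ∈ range k, X i ≤ ∏ i ∈ range k, Y i) :
    ∏ i ∈ range n, (1 + X i) ≤ ∏ i ∈ range n, (1 + Y i) := by
  have h1 : 0 ≤ ∑ i ∈ range n, X i / (1 + X i) * (Real.log (Y i) - Real.log (X i)) := by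
    apply abel
    · intro i _
      have := hX i
      positivity
    · intro i hi
      have h1 := hXa i hi
      have h2 := hX i
      have h3 := hX (i + 1)
      rw [div_le_div_iff₀ (by positivity) (by positivity)]
      nlinarith
    · intro k hk
      rw [sum_sub_distrib, ← Real.log_prod (fun i _ => (hY i).ne'),
        ← Real.log_prod (fun i _ => (hX i).ne'), sub_nonneg]
      exact Real.log_le_log (prod_pos fun i _ => hX i) (h k hk)
  have h2 : Real.log (∏ i ∈ range n, (1 + X i)) ≤ Real.log (∏ i ∈ range n, (1 + Y i)) := by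
    rw [Real.log_prod (fun i _ => by have := hX i; positivity),
      Real.log_prod (fun i _ => by have := hY i; positivity), ← sub_nonneg, ← sum_sub_distrib]
    exact h1.trans (sum_le_sum fun i _ => log_ineq (hX i) (hY i))
  exact (Real.log_le_log_iff (prod_pos fun i _ => by have := hX i; positivity)
    (prod_pos fun i _ => by have := hY i; positivity)).mp h2

lemma exists_sort {n : ℕ} (x : Fin n → ℝ) : ∃ σ : Equiv.Perm (Fin n), Antitone (x ∘ σ) := by
  refine ⟨Tuple.sort (fun i => - x i), ?_⟩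
  have := Tuple.monotone_sort (fun i => - x i)
  intro i j hij
  have h := this hij
  simp only [Function.comp] at h ⊢
  linarith

/-- extension of a finite sequence -/
noncomputable def ext1 {n : ℕ} (x : Fin n → ℝ) (i : ℕ) : ℝ := if h : i < n then x ⟨i, h⟩ else 1

lemma ext1_pos {n : ℕ} {x : Fin n → ℝ} (hx : ∀ i, 0 < x i) (i : ℕ) : 0 < ext1 x i := by
  unfold ext1
  split_ifs
  · exact hx _
  · norm_num

lemma ext1_val {n : ℕ} (x : Fin n → ℝ) (i : Fin n) : ext1 x (i : ℕ) = x i := by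
  unfold ext1
  rw [dif_pos i.2]

/-- the first `k` indices -/
def topI (n k : ℕ) (hk : k ≤ n) : Ix n k :=
  ⟨univ.map (Fin.castLEEmb hk), by simp⟩

lemma prod_topI {n k : ℕ} (hk : k ≤ n) (x : Fin n → ℝ) :
    lamP x (topI n k hk) = ∏ i ∈ range k, ext1 x i := by
  unfold lamP topI
  rw [prod_map, Finset.prod_range]
  apply prod_congr rfl
  intro i _
  rw [← ext1_val x]
  rfl

lemma le_emb {n k : ℕ} (J : Ix n k) (i : Fin k) : (i : ℕ) ≤ (J.1.orderEmbOfFin J.2 i : ℕ) := by
  obtain ⟨i, hi⟩ := i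
  induction i with
  | zero => simp
  | succ i ih =>
    have h1 := ih (by omega)
    have h2 : J.1.orderEmbOfFin J.2 ⟨i, by omega⟩ < J.1.orderEmbOfFin J.2 ⟨i + 1, hi⟩ := by
      apply (J.1.orderEmbOfFin J.2).strictMono
      simp
    have h3 : (J.1.orderEmbOfFin J.2 ⟨i, by omega⟩ : ℕ) <
      (J.1.orderEmbOfFin J.2 ⟨i + 1, hi⟩ : ℕ) := h2
    simp only at h1 ⊢
    omega

lemma lamP_le_top {n k : ℕ} (hk : k ≤ n) {y : Fin n → ℝ} (hy : ∀ i, 0 < y i)
    (hanti : Antitone y) (J : Ix n k) : lamP y J ≤ lamP y (topI n k hk) := by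
  rw [prod_topI, ← lamP_eq, Finset.prod_range]
  apply prod_le_prod
  · intro i _
    exact (hy _).le
  · intro i _
    have h1 := le_emb J i
    have h2 : (i : ℕ) < n := lt_of_lt_of_le i.2 hk
    have h3 : ext1 y (i : ℕ) = y ⟨i, h2⟩ := by
      unfold ext1
      rw [dif_pos h2]
    rw [h3]
    exact hanti h1

/-- transport of an index set -/
def mapI {n k : ℕ} (σ : Equiv.Perm (Fin n)) (J : Ix n k) : Ix n k :=
  ⟨J.1.map σ.toEmbedding, by rw [card_map]; exact J.2⟩

lemma lamP_mapI {n k : ℕ} (σ : Equiv.Perm (Fin n)) (J : Ix n k) (y : Fin n → ℝ) :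
    lamP y (mapI σ J) = lamP (y ∘ σ) J := by
  unfold lamP mapI
  rw [prod_map]
  rfl

lemma lamP_mapI' {n k : ℕ} (σ : Equiv.Perm (Fin n)) (J : Ix n k) (y : Fin n → ℝ) :
    lamP (y ∘ σ) (mapI σ.symm J) = lamP y J := by
  rw [lamP_mapI]
  congr 1
  ext i
  simp

theorem maj {n : ℕ} {x y : Fin n → ℝ} (hx : ∀ i, 0 < x i) (hy : ∀ i, 0 < y i)
    (h : ∀ k, k ≤ n → ∀ I : Ix n k, ∃ J : Ix n k, lamP x I ≤ lamP y J) :
    ∏ i, (1 + x i) ≤ ∏ i, (1 + y i) := by
  obtain ⟨σ, hσ⟩ := exists_sort x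
  obtain ⟨τ, hτ⟩ := exists_sort y
  have h1 := sorted_case n (ext1 (x ∘ σ)) (ext1 (y ∘ τ)) (ext1_pos fun i => hx _)
    (ext1_pos fun i => hy _) ?_ ?_
  · rw [Finset.prod_range, Finset.prod_range] at h1
    simp only [ext1_val] at h1
    have e1 : ∏ i, (1 + (x ∘ σ) i) = ∏ i, (1 + x i) := Equiv.prod_comp σ (fun i => 1 + x i)
    have e2 : ∏ i, (1 + (y ∘ τ) i) = ∏ i, (1 + y i) := Equiv.prod_comp τ (fun i => 1 + y i)
    rwa [e1, e2] at h1
  · intro i hi
    unfold ext1
    rw [dif_pos hi, dif_pos (by omega)]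
    apply hσ
    simp
  · intro k hk
    rw [← prod_topI hk, ← prod_topI hk, ← lamP_mapI]
    obtain ⟨J, hJ⟩ := h k hk (mapI σ (topI n k hk))
    refine hJ.trans ?_
    rw [← lamP_mapI' τ J y]
    exact lamP_le_top hk (fun i => hy _) hτ _

end Q170.DetIneq
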