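import Pool.Agent.Q170.DetIneq.Core
import Pool.Agent.Q170.DetIneq.Maj

/-!
The determinant inequality.
-/

namespace Q170.DetIneq

open scoped MatrixOrder Matrix.Norms.L2Operator ComplexOrder
open Matrix

variable {n : ℕ}

lemma PP_posDef {A B : Matrix (Fin n) (Fin n) ℂ} (hA : A.PosDef) (hB : B.PosDef) (s : ℝ) :
    (PP A B s).PosDef :=
  posDef_conj (posDef_rpow (posDef_conj (posDef_AA hA) hB) s) (posDef_rpow hA _)

lemma QQ_posDef {A B : Matrix (Fin n) (Fin n) ℂ} (hA : A.PosDef) (hB : B.PosDef) (s : ℝ) :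
    (QQ A B s).PosDef :=
  posDef_conj (posDef_rpow hB _) (posDef_rpow hA _)

lemma det_one_add {V : Matrix (Fin n) (Fin n) ℂ} (hV' : V * Vᴴ = 1) (d : Fin n → ℝ) :
    (1 + cd V d).det = ((∏ i, (1 + d i) : ℝ) : ℂ) := by
  rw [← cd_one hV', cd_add, cd_det hV']

lemma det_PP_QQ {A B : Matrix (Fin n) (Fin n) ℂ} (hA : A.PosDef) (hB : B.PosDef) {s : ℝ}
    (hs0 : 0 < s) (hs1 : s ≤ 1) :
    0 ≤ (1 + QQ A B s).det ∧ (1 + QQ A B s).det ≤ (1 + PP A B s).det := by
  obtain ⟨V, y, hV1, hV2, hy, hPe⟩ := exists_cd (PP_posDef hA hB s)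
  obtain ⟨W, x, hW1, hW2, hx, hQe⟩ := exists_cd (QQ_posDef hA hB s)
  have hmaj : ∏ i, (1 + x i) ≤ ∏ i, (1 + y i) := by
    apply maj hx hy
    intro k hk I
    have : Nonempty (Ix n k) := ⟨I⟩
    obtain ⟨J, hJ⟩ := Finite.exists_max (fun J : Ix n k => lamP y J)
    refine ⟨J, ?_⟩
    have h1 : cpd k (PP A B s) ≤ (lamP y J) • 1 := by
      rw [hPe, cpd_cd]
      have e1 : (lamP y J) • (1 : Matrix (Ix n k) (Ix n k) ℂ) =
          cd (cpd k V) (fun _ => lamP y J) := by
        rw [← cd_one (cpd_unitary' hV2), cd_smul]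
        simp
      rw [e1]
      exact cd_mono hJ
    have h2 := cpd_ineq hA hB hs0 hs1 hk (lamP_pos hy J) h1
    rw [hQe, cpd_cd] at h2
    exact le_of_cd_le (cpd_unitary hW1) h2 I
  rw [hPe, hQe, det_one_add hV2, det_one_add hW2]
  constructor
  · have : 0 ≤ ∏ i, (1 + x i) := Finset.prod_nonneg fun i _ => by have := hx i; positivity
    exact_mod_cast this
  · exact_mod_cast hmaj

lemma main_pd {A B : Matrix (Fin n) (Fin n) ℂ} (hA : A.PosDef) (hB : B.PosDef) {s : ℝ}
    (hs0 : 0 < s) (hs1 : s ≤ 1) :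
    0 ≤ (A * A + A ^ (2 * s) * B ^ (2 * s)).det ∧
    (A * A + A ^ (2 * s) * B ^ (2 * s)).det ≤ (A * A + (B * (A * A) * B) ^ s).det := by
  obtain ⟨h1, h2⟩ := det_PP_QQ hA hB hs0 hs1
  have hAs : IsStrictlyPositive A := hA.isStrictlyPositive
  have hdA : 0 ≤ A.det * A.det := by
    have := hA.det_pos.le
    exact mul_nonneg this this
  have e1 : A * A + (B * (A * A) * B) ^ s = A * (1 + PP A B s) * A := by
    unfold PP
    have f1 : A * A ^ (-1 : ℝ) = 1 := by
      have := CFC.rpow_mul_rpow_neg 1 hAs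
      rwa [CFC.rpow_one _ hAs.nonneg] at this
    have f2 : A ^ (-1 : ℝ) * A = 1 := by
      have := CFC.rpow_neg_mul_rpow 1 hAs
      rwa [CFC.rpow_one _ hAs.nonneg] at this
    calc A * A + (B * (A * A) * B) ^ s
        = A * A + (A * A ^ (-1 : ℝ)) * (B * (A * A) * B) ^ s * (A ^ (-1 : ℝ) * A) := by
          rw [f1, f2, one_mul, mul_one]
      _ = _ := by noncomm_ring
  have e2 : A * A + A ^ (2 * s) * B ^ (2 * s) =
      A ^ (1 + s) * (1 + QQ A B s) * A ^ (1 - s) := by
    unfold QQ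
    have f1 : A ^ (1 + s) * A ^ (1 - s) = A * A := by
      rw [← CFC.rpow_add hAs.isUnit]
      have e1 : A * A = A ^ (2 : ℝ) := by
        have := CFC.rpow_natCast A 2 hAs.nonneg
        rw [← sq, ← this]
        norm_num
      rw [e1]
      congr 1
      ring
    have f2 : A ^ (1 + s) * A ^ (s - 1) = A ^ (2 * s) := by
      rw [← CFC.rpow_add hAs.isUnit]
      congr 1
      ring
    have f3 : A ^ (s - 1) * A ^ (1 - s) = 1 := by
      rw [← CFC.rpow_add hAs.isUnit, ← CFC.rpow_zero A hAs.nonneg]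
      congr 1
      ring
    symm
    calc A ^ (1 + s) * (1 + A ^ (s - 1) * B ^ (2 * s) * A ^ (s - 1)) * A ^ (1 - s)
        = A ^ (1 + s) * A ^ (1 - s) + (A ^ (1 + s) * A ^ (s - 1)) * B ^ (2 * s) *
          (A ^ (s - 1) * A ^ (1 - s)) := by noncomm_ring
      _ = _ := by rw [f1, f2, f3, mul_one]
  have d1 : (A * A + (B * (A * A) * B) ^ s).det = A.det * A.det * (1 + PP A B s).det := by
    rw [e1, det_mul, det_mul]
    ring
  have d2 : (A * A + A ^ (2 * s) * B ^ (2 * s)).det = A.det * A.det * (1 + QQ A B s).det := by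
    rw [e2, det_mul, det_mul]
    have f1 : (A ^ (1 + s)).det * (A ^ (1 - s)).det = A.det * A.det := by
      rw [← det_mul, ← det_mul, ← CFC.rpow_add hAs.isUnit]
      have e1 : A * A = A ^ (2 : ℝ) := by
        have := CFC.rpow_natCast A 2 hAs.nonneg
        rw [← sq, ← this]
        norm_num
      rw [e1]
      congr 2
      ring
    rw [← f1]
    ring
  rw [d1, d2]
  exact ⟨mul_nonneg hdA h1, mul_le_mul_of_nonneg_left h2 hdA⟩

lemma cont_pow {q : ℝ} (hq : 0 ≤ q) {a : ℝ → Matrix (Fin n) (Fin n) ℂ} (ha : Continuous a)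
    (hsa : ∀ x, IsSelfAdjoint (a x)) : Continuous (fun x => cfc (fun t : ℝ => t ^ q) (a x)) :=
  Continuous.cfc_of_mem_nhdsSet (s := Set.univ) _ Filter.univ_mem ha hsa
    (Real.continuous_rpow_const hq).continuousOn

lemma complex_le_of_tendsto {f g : ℝ → ℂ} (hf : Continuous f) (hg : Continuous g)
    (h : ∀ x, 0 < x → f x ≤ g x) : f 0 ≤ g 0 := by
  have h1 : Filter.Tendsto (fun x => (g x - f x)) (nhdsWithin 0 (Set.Ioi 0)) (nhds (g 0 - f 0)) :=
    ((hg.sub hf).tendsto 0).mono_left nhdsWithin_le_nhds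
  have hre : Filter.Tendsto (fun x => (g x - f x).re) (nhdsWithin 0 (Set.Ioi 0))
      (nhds (g 0 - f 0).re) := (Complex.continuous_re.tendsto _).comp h1
  have him : Filter.Tendsto (fun x => (g x - f x).im) (nhdsWithin 0 (Set.Ioi 0))
      (nhds (g 0 - f 0).im) := (Complex.continuous_im.tendsto _).comp h1
  have hev : ∀ᶠ x in nhdsWithin (0 : ℝ) (Set.Ioi 0), 0 < x := self_mem_nhdsWithin
  rw [Complex.le_def]
  constructor
  · have := ge_of_tendsto hre (hev.mono fun x hx => by
      have := (Complex.le_def.mp (h x hx)).1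
      show (0 : ℝ) ≤ (g x - f x).re
      rw [Complex.sub_re]
      linarith)
    rw [Complex.sub_re] at this
    linarith
  · have h2 : Filter.Tendsto (fun x => (g x - f x).im) (nhdsWithin 0 (Set.Ioi 0)) (nhds 0) := by
      apply tendsto_const_nhds.congr'
      filter_upwards [hev] with x hx
      have := (Complex.le_def.mp (h x hx)).2
      rw [Complex.sub_im]
      linarith
    have := tendsto_nhds_unique him h2
    rw [Complex.sub_im] at this
    linarith

lemma add_eps_posDef {A : Matrix (Fin n) (Fin n) ℂ} (hA : A.PosSemidef) {e : ℝ} (he : 0 < e) :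
    (A + (e : ℂ) • 1).PosDef := by
  have h1 : ((e : ℂ) • (1 : Matrix (Fin n) (Fin n) ℂ)).PosDef := by
    apply PosDef.smul PosDef.one
    exact_mod_cast he
  exact PosDef.posSemidef_add hA h1

theorem main_psd {A B : Matrix (Fin n) (Fin n) ℂ} (hA : A.PosSemidef) (hB : B.PosSemidef) {s : ℝ}
    (hs0 : 0 < s) (hs1 : s ≤ 1) :
    0 ≤ (A * A + cfc (fun x : ℝ => x ^ (2 * s)) A * cfc (fun x : ℝ => x ^ (2 * s)) B).det ∧
    (A * A + cfc (fun x : ℝ => x ^ (2 * s)) A * cfc (fun x : ℝ => x ^ (2 * s)) B).det ≤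
      (A * A + cfc (fun x : ℝ => x ^ s) (B * (A * A) * B)).det := by
  set a : ℝ → Matrix (Fin n) (Fin n) ℂ := fun e => A + (e : ℂ) • 1 with ha
  set b : ℝ → Matrix (Fin n) (Fin n) ℂ := fun e => B + (e : ℂ) • 1 with hb
  have hac : Continuous a := by fun_prop
  have hbc : Continuous b := by fun_prop
  have hasa : ∀ e, IsSelfAdjoint (a e) := by
    intro e
    have h1 : IsSelfAdjoint A := hA.1
    have h2 : IsSelfAdjoint ((e : ℂ) • (1 : Matrix (Fin n) (Fin n) ℂ)) := by
      apply IsSelfAdjoint.smul _ (IsSelfAdjoint.one _)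
      exact Complex.conj_ofReal e
    exact h1.add h2
  have hbsa : ∀ e, IsSelfAdjoint (b e) := by
    intro e
    have h1 : IsSelfAdjoint B := hB.1
    have h2 : IsSelfAdjoint ((e : ℂ) • (1 : Matrix (Fin n) (Fin n) ℂ)) := by
      apply IsSelfAdjoint.smul _ (IsSelfAdjoint.one _)
      exact Complex.conj_ofReal e
    exact h1.add h2
  have hzc : Continuous (fun e => b e * (a e * a e) * b e) := by fun_prop
  have hzsa : ∀ e, IsSelfAdjoint (b e * (a e * a e) * b e) := by
    intro e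
    unfold IsSelfAdjoint
    rw [star_mul, star_mul, star_mul, (hasa e).star_eq, (hbsa e).star_eq]
    noncomm_ring
  have hA2 := cont_pow (q := 2 * s) (by linarith) hac hasa
  have hB2 := cont_pow (q := 2 * s) (by linarith) hbc hbsa
  have hZ2 := cont_pow (q := s) hs0.le hzc hzsa
  have hf : Continuous (fun e => (a e * a e + cfc (fun x : ℝ => x ^ (2 * s)) (a e) *
      cfc (fun x : ℝ => x ^ (2 * s)) (b e)).det) := by
    apply Continuous.matrix_det
    exact (hac.mul hac).add (hA2.mul hB2)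
  have hg : Continuous (fun e => (a e * a e + cfc (fun x : ℝ => x ^ s)
      (b e * (a e * a e) * b e)).det) := by
    apply Continuous.matrix_det
    exact (hac.mul hac).add hZ2
  have hkey : ∀ e, 0 < e → 0 ≤ (a e * a e + cfc (fun x : ℝ => x ^ (2 * s)) (a e) *
      cfc (fun x : ℝ => x ^ (2 * s)) (b e)).det ∧ (a e * a e + cfc (fun x : ℝ => x ^ (2 * s)) (a e) *
      cfc (fun x : ℝ => x ^ (2 * s)) (b e)).det ≤ (a e * a e + cfc (fun x : ℝ => x ^ s)
      (b e * (a e * a e) * b e)).det := by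
    intro e he
    have h1 : (a e).PosDef := add_eps_posDef hA he
    have h2 : (b e).PosDef := add_eps_posDef hB he
    have h3 : (b e * (a e * a e) * b e).PosDef := posDef_conj (posDef_AA h1) h2
    have := main_pd h1 h2 hs0 hs1
    rw [CFC.rpow_eq_cfc_real h1.isStrictlyPositive.nonneg,
      CFC.rpow_eq_cfc_real h2.isStrictlyPositive.nonneg,
      CFC.rpow_eq_cfc_real h3.isStrictlyPositive.nonneg] at this
    exact this
  have ha0 : a 0 = A := by simp [ha]
  have hb0 : b 0 = B := by simp [hb]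
  constructor
  · have := complex_le_of_tendsto (f := fun _ => 0) continuous_const hf
      (fun e he => (hkey e he).1)
    simpa only [ha0, hb0] using this
  · have := complex_le_of_tendsto hf hg (fun e he => (hkey e he).2)
    simpa only [ha0, hb0] using this

end Q170.DetIneq
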