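import Pool.Agent.Q170.DetIneq.Op

/-!
Powers of positive definite matrices which are given by a diagonalization.
-/

namespace Q170.DetIneq

open scoped MatrixOrder Matrix.Norms.L2Operator ComplexOrder
open Matrix

variable {m : Type*} [Fintype m] [DecidableEq m]

/-- `V diag(d) V*` -/
noncomputable def cd (V : Matrix m m ℂ) (d : m → ℝ) : Matrix m m ℂ :=
  V * diagonal (fun i => (d i : ℂ)) * Vᴴ

lemma cd_one {V : Matrix m m ℂ} (hV : V * Vᴴ = 1) : cd V (fun _ => 1) = 1 := by
  unfold cd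
  simp [hV]

lemma cd_mul {V : Matrix m m ℂ} (hV : Vᴴ * V = 1) (d e : m → ℝ) :
    cd V d * cd V e = cd V (fun i => d i * e i) := by
  unfold cd
  calc V * diagonal (fun i => (d i : ℂ)) * Vᴴ * (V * diagonal (fun i => (e i : ℂ)) * Vᴴ)
      = V * diagonal (fun i => (d i : ℂ)) * (Vᴴ * V) * diagonal (fun i => (e i : ℂ)) * Vᴴ := by
        noncomm_ring
    _ = _ := by
        rw [hV, mul_one, mul_assoc V, diagonal_mul_diagonal]
        simp

lemma cd_add (V : Matrix m m ℂ) (d e : m → ℝ) :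
    cd V d + cd V e = cd V (fun i => d i + e i) := by
  unfold cd
  rw [← add_mul, ← mul_add, diagonal_add]
  simp

lemma cd_smul (V : Matrix m m ℂ) (c : ℝ) (d : m → ℝ) :
    c • cd V d = cd V (fun i => c * d i) := by
  unfold cd
  rw [← Matrix.smul_mul, ← Matrix.mul_smul, ← diagonal_smul]
  congr 3
  ext i
  simp

lemma cd_pow {V : Matrix m m ℂ} (hV : Vᴴ * V = 1) (hV' : V * Vᴴ = 1) (d : m → ℝ) (k : ℕ) :
    cd V d ^ k = cd V (fun i => d i ^ k) := by
  induction k with
  | zero => simp [cd_one hV']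
  | succ k ih => rw [pow_succ, ih, cd_mul hV]; simp [pow_succ]

lemma aeval_cd {V : Matrix m m ℂ} (hV : Vᴴ * V = 1) (hV' : V * Vᴴ = 1) (d : m → ℝ)
    (r : Polynomial ℝ) : Polynomial.aeval (cd V d) r = cd V (fun i => r.eval (d i)) := by
  induction r using Polynomial.induction_on' with
  | add p q hp hq => rw [map_add, hp, hq, cd_add]; simp
  | monomial k c =>
    rw [Polynomial.aeval_monomial, cd_pow hV hV', ← Algebra.smul_def, cd_smul]
    simp

lemma cd_posSemidef (V : Matrix m m ℂ) {d : m → ℝ} (hd : ∀ i, 0 ≤ d i) :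
    (cd V d).PosSemidef := by
  unfold cd
  apply PosSemidef.mul_mul_conjTranspose_same
  rw [posSemidef_diagonal_iff]
  intro i
  exact_mod_cast hd i

lemma cd_det {V : Matrix m m ℂ} (hV' : V * Vᴴ = 1) (d : m → ℝ) :
    (cd V d).det = ((∏ i, d i : ℝ) : ℂ) := by
  unfold cd
  rw [det_mul, det_mul, det_diagonal]
  have : V.det * Vᴴ.det = 1 := by rw [← det_mul, hV', det_one]
  calc V.det * (∏ i, (d i : ℂ)) * Vᴴ.det = (V.det * Vᴴ.det) * ∏ i, (d i : ℂ) := by ring
    _ = _ := by rw [this, one_mul]; push_cast; rfl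

lemma cd_posDef {V : Matrix m m ℂ} (hV' : V * Vᴴ = 1) {d : m → ℝ} (hd : ∀ i, 0 < d i) :
    (cd V d).PosDef := by
  rw [(cd_posSemidef V (fun i => (hd i).le)).posDef_iff_det_ne_zero, cd_det hV']
  exact_mod_cast (Finset.prod_pos (fun i _ => hd i)).ne'

lemma spectrum_cd {V : Matrix m m ℂ} (hV' : V * Vᴴ = 1) (d : m → ℝ)
    {x : ℝ} (hx : x ∈ spectrum ℝ (cd V d)) : ∃ i, x = d i := by
  by_contra hcon
  push Not at hcon
  apply spectrum.mem_iff.mp hx
  have h1 : algebraMap ℝ (Matrix m m ℂ) x - cd V d = cd V (fun i => x - d i) := by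
    have e1 : algebraMap ℝ (Matrix m m ℂ) x = cd V (fun _ => x) := by
      rw [Algebra.algebraMap_eq_smul_one, ← cd_one hV', cd_smul]
      simp
    rw [e1]
    have := cd_add V (fun i => x - d i) d
    simp only [sub_add_cancel] at this
    rw [← this, add_sub_cancel_right]
  rw [h1, Matrix.isUnit_iff_isUnit_det, cd_det hV', isUnit_iff_ne_zero]
  have : ∏ i, (x - d i) ≠ 0 := Finset.prod_ne_zero_iff.mpr (fun i _ => sub_ne_zero.mpr (hcon i))
  exact_mod_cast this

lemma cd_rpow {V : Matrix m m ℂ} (hV : Vᴴ * V = 1) (hV' : V * Vᴴ = 1) {d : m → ℝ}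
    (hd : ∀ i, 0 < d i) (q : ℝ) : cd V d ^ q = cd V (fun i => d i ^ q) := by
  have h0 : 0 ≤ cd V d := nonneg_iff_posSemidef.mpr (cd_posSemidef V (fun i => (hd i).le))
  obtain ⟨r, hr⟩ : ∃ r : Polynomial ℝ, ∀ i, r.eval (d i) = d i ^ q := by
    refine ⟨Lagrange.interpolate (Finset.univ.image d) id (fun x => x ^ q), fun i => ?_⟩
    have := Lagrange.eval_interpolate_at_node (s := Finset.univ.image d) (v := id)
      (fun x => x ^ q) (Set.injOn_id _) (Finset.mem_image_of_mem d (Finset.mem_univ i))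
    simpa using this
  rw [CFC.rpow_eq_cfc_real h0]
  have h1 : cfc (fun x : ℝ => x ^ q) (cd V d) = cfc r.eval (cd V d) := by
    apply cfc_congr
    intro x hx
    obtain ⟨i, rfl⟩ := spectrum_cd hV' d hx
    exact (hr i).symm
  rw [h1, cfc_polynomial r (cd V d) h0.isSelfAdjoint, aeval_cd hV hV']
  congr 1
  ext i
  exact hr i

lemma exists_cd {Z : Matrix m m ℂ} (hZ : Z.PosDef) :
    ∃ (V : Matrix m m ℂ) (d : m → ℝ), Vᴴ * V = 1 ∧ V * Vᴴ = 1 ∧ (∀ i, 0 < d i) ∧ Z = cd V d := by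
  refine ⟨(hZ.1.eigenvectorUnitary : Matrix m m ℂ), hZ.1.eigenvalues, ?_, ?_, ?_, ?_⟩
  · exact Unitary.star_mul_self_of_mem hZ.1.eigenvectorUnitary.2
  · exact Unitary.mul_star_self_of_mem hZ.1.eigenvectorUnitary.2
  · exact hZ.eigenvalues_pos
  · exact hZ.1.spectral_theorem

lemma cd_mono {V : Matrix m m ℂ} {d e : m → ℝ} (h : ∀ i, d i ≤ e i) : cd V d ≤ cd V e := by
  rw [Matrix.le_iff]
  have := cd_add V (fun i => e i - d i) d
  simp only [sub_add_cancel] at this
  rw [← this, add_sub_cancel_right]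
  exact cd_posSemidef V (fun i => sub_nonneg.mpr (h i))

lemma le_of_cd_le {V : Matrix m m ℂ} (hV : Vᴴ * V = 1) {d : m → ℝ} {c : ℝ}
    (h : cd V d ≤ c • 1) (i : m) : d i ≤ c := by
  rw [Matrix.le_iff] at h
  have h1 := h.conjTranspose_mul_mul_same V
  have h2 : Vᴴ * (c • (1 : Matrix m m ℂ) - cd V d) * V = diagonal (fun i => ((c - d i : ℝ) : ℂ)) := by
    unfold cd
    calc _ = c • (Vᴴ * V) - (Vᴴ * V) * diagonal (fun i => (d i : ℂ)) * (Vᴴ * V) := by
          rw [mul_sub, sub_mul]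
          congr 1
          · rw [Matrix.mul_smul, Matrix.smul_mul, mul_one]
          · noncomm_ring
      _ = _ := by
          rw [hV, one_mul, mul_one]
          ext a b
          by_cases hab : a = b
          · subst hab
            simp
          · simp [hab]
  rw [h2, posSemidef_diagonal_iff] at h1
  have := h1 i
  have h3 : (0 : ℝ) ≤ c - d i := by exact_mod_cast this
  linarith

end Q170.DetIneq
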