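import Mathlib

/-!
An operator inequality in unital C*-algebras: for strictly positive `G`, `X` and `0 < s ≤ 1`,
`(G X G)^s ≤ X` implies `G^(2s) ≤ X^(1-s)`.
-/

namespace Q170.DetIneq

variable {A : Type*} [CStarAlgebra A] [PartialOrder A] [StarOrderedRing A] [Nontrivial A]

omit [Nontrivial A] in
lemma sa_rpow (D : A) (x : ℝ) : star (D ^ x) = D ^ x :=
  (IsSelfAdjoint.of_nonneg (CFC.rpow_nonneg (a := D) (y := x))).star_eq

/-- the function `α ↦ ‖D^α G D^(-α-c)‖` -/
noncomputable def N (D G : A) (c x : ℝ) : ℝ := ‖D ^ x * G * D ^ (-x - c)‖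

omit [Nontrivial A] in
lemma N_symm {D G : A} (hG : IsSelfAdjoint G) (c x : ℝ) : N D G c x = N D G c (-x - c) := by
  unfold N
  rw [← norm_star, star_mul, star_mul, sa_rpow, sa_rpow, hG.star_eq, ← mul_assoc]
  congr 3
  ring

lemma N_conv {D G : A} (hD : IsStrictlyPositive D) (hG : IsSelfAdjoint G) (c x h : ℝ) :
    N D G c x ^ 2 ≤ N D G c (x + h) * N D G c (x - h) := by
  have hU : IsUnit D := hD.isUnit
  set T := D ^ x * G * D ^ (-x - c) with hT
  have h1 : N D G c x ^ 2 = ‖star T * T‖ := by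
    rw [CStarRing.norm_star_mul_self, N, sq]
  have hsa : IsSelfAdjoint (star T * T) := IsSelfAdjoint.star_mul_self T
  -- the unit `D^h`
  set u : Aˣ := ⟨D ^ h, D ^ (-h), CFC.rpow_mul_rpow_neg h hD, CFC.rpow_neg_mul_rpow h hD⟩ with hu
  have h2 : ‖star T * T‖ ≤ ‖(↑(u⁻¹) : A) * (star T * T) * (u : A)‖ := by
    have e1 := hsa.spectralRadius_eq_nnnorm
    have e2 : spectralRadius ℂ ((↑(u⁻¹) : A) * (star T * T) * (u : A)) =
        spectralRadius ℂ (star T * T) := by
      unfold spectralRadius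
      rw [spectrum.units_conjugate']
    have e3 := spectrum.spectralRadius_le_nnnorm (𝕜 := ℂ)
      ((↑(u⁻¹) : A) * (star T * T) * (u : A))
    rw [e2, e1] at e3
    exact_mod_cast e3
  have h3 : (↑(u⁻¹) : A) * (star T * T) * (u : A) =
      (D ^ (-(x + h) - c) * G * D ^ (x + h)) * (D ^ (x - h) * G * D ^ (-(x - h) - c)) := by
    have e1 : (↑(u⁻¹) : A) = D ^ (-h) := rfl
    have e2 : (u : A) = D ^ h := rfl
    rw [e1, e2, hT, star_mul, star_mul, sa_rpow, sa_rpow, hG.star_eq]
    have f1 : D ^ (-(x + h) - c) = D ^ (-h) * D ^ (-x - c) := by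
      rw [← CFC.rpow_add hU]; congr 1; ring
    have f2 : D ^ (-(x - h) - c) = D ^ (-x - c) * D ^ h := by
      rw [← CFC.rpow_add hU]; congr 1; ring
    have f3 : D ^ (x + h) * D ^ (x - h) = D ^ x * D ^ x := by
      rw [← CFC.rpow_add hU, ← CFC.rpow_add hU]; congr 1; ring
    rw [f1, f2]
    calc D ^ (-h) * (D ^ (-x - c) * (G * D ^ x) * (D ^ x * G * D ^ (-x - c))) * D ^ h
        = D ^ (-h) * D ^ (-x - c) * G * (D ^ x * D ^ x) * G * D ^ (-x - c) * D ^ h := by
          noncomm_ring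
      _ = _ := by rw [← f3]; noncomm_ring
  rw [h1]
  refine h2.trans ?_
  rw [h3]
  refine (norm_mul_le _ _).trans ?_
  have h4 : ‖D ^ (-(x + h) - c) * G * D ^ (x + h)‖ = N D G c (x + h) := by
    rw [N_symm hG c (x + h), N]
    congr 3
    ring
  rw [h4]
  rfl

omit [Nontrivial A] in
lemma norm_rpow_le {D : A} (hD : IsStrictlyPositive D) :
    ∃ K : ℝ, 1 ≤ K ∧ ∀ x : ℝ, ‖D ^ x‖ ≤ K ^ |x| := by
  set K : NNReal := max 1 (max ‖D‖₊ ‖D ^ (-1 : ℝ)‖₊) with hK
  have hK1 : 1 ≤ K := le_max_left _ _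
  refine ⟨K, by exact_mod_cast hK1, ?_⟩
  intro x
  have h1 : ‖D ^ x‖₊ ≤ K ^ |x| := by
    rw [CFC.rpow_def]
    apply nnnorm_cfc_nnreal_le
    intro y hy
    have hy0 : y ≠ 0 := by
      intro h
      rw [h] at hy
      exact spectrum.zero_notMem _ hD.isUnit hy
    have hyK : y ≤ K := by
      have := apply_le_nnnorm_cfc_nnreal (fun x : NNReal => x ^ (1 : ℝ)) D hy
        (NNReal.continuousOn_rpow_const (Or.inr zero_le_one)) hD.nonneg
      simp only [NNReal.rpow_one] at this
      have e : cfc (fun x : NNReal => x) D = D := cfc_id' NNReal D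
      rw [e] at this
      exact this.trans ((le_max_left _ _).trans (le_max_right _ _))
    have hyK' : y⁻¹ ≤ K := by
      have hc : ContinuousOn (fun x : NNReal => x ^ (-1 : ℝ)) (spectrum NNReal D) := by
        apply NNReal.continuousOn_rpow_const
        left
        exact spectrum.zero_notMem _ hD.isUnit
      have := apply_le_nnnorm_cfc_nnreal (fun x : NNReal => x ^ (-1 : ℝ)) D hy hc hD.nonneg
      simp only [NNReal.rpow_neg_one] at this
      have e : cfc (fun x : NNReal => x⁻¹) D = D ^ (-1 : ℝ) := by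
        rw [CFC.rpow_def]
        simp only [NNReal.rpow_neg_one]
      rw [e] at this
      exact this.trans ((le_max_right _ _).trans (le_max_right _ _))
    rcases le_or_gt 0 x with hx | hx
    · rw [abs_of_nonneg hx]
      exact NNReal.rpow_le_rpow hyK hx
    · rw [abs_of_neg hx]
      have : y ^ x = (y⁻¹) ^ (-x) := by
        rw [NNReal.rpow_neg, NNReal.inv_rpow, inv_inv]
      rw [this]
      exact NNReal.rpow_le_rpow hyK' (by linarith)
  exact_mod_cast h1

omit [Nontrivial A] in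
lemma N_bdd {D : A} (hD : IsStrictlyPositive D) (G : A) (c b : ℝ) :
    ∃ B : ℝ, 1 ≤ B ∧ ∀ x : ℝ, |x| ≤ b → N D G c x ≤ B := by
  obtain ⟨K, hK, h⟩ := norm_rpow_le hD
  refine ⟨max 1 (K ^ b * ‖G‖ * K ^ (b + |c|)), le_max_left _ _, ?_⟩
  intro x hx
  refine le_trans ?_ (le_max_right _ _)
  unfold N
  refine (norm_mul_le _ _).trans ?_
  have h1 : ‖D ^ x * G‖ ≤ K ^ b * ‖G‖ := by
    refine (norm_mul_le _ _).trans ?_
    apply mul_le_mul_of_nonneg_right _ (norm_nonneg _)
    exact (h x).trans (Real.rpow_le_rpow_of_exponent_le hK hx)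
  have h2 : ‖D ^ (-x - c)‖ ≤ K ^ (b + |c|) := by
    refine (h _).trans (Real.rpow_le_rpow_of_exponent_le hK ?_)
    calc |-x - c| ≤ |-x| + |c| := abs_sub _ _
      _ ≤ b + |c| := by rw [abs_neg]; linarith
  exact mul_le_mul h1 h2 (norm_nonneg _) (by positivity)

/-- interpolation -/
lemma N_le_one {D G : A} (hD : IsStrictlyPositive D) (hG : IsSelfAdjoint G) {c b : ℝ}
    (hc : 0 ≤ c) (h1 : N D G c b ≤ 1) {x : ℝ} (hx1 : -b - c ≤ x) (hx2 : x ≤ b) :
    N D G c x ≤ 1 := by
  obtain ⟨B, hB1, hB⟩ := N_bdd hD G c (b + c)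
  have hN0 : ∀ x, 0 ≤ N D G c x := fun x => norm_nonneg _
  have hkey : ∀ k : ℕ, ∀ x, -b - c ≤ x → x ≤ b → N D G c x ^ (2 ^ k) ≤ B := by
    intro k
    induction k with
    | zero =>
      intro x hx1 hx2
      rw [pow_zero, pow_one]
      apply hB
      rw [abs_le]
      constructor <;> linarith
    | succ k ih =>
      intro x hx1 hx2
      have hstep : ∀ x, -c / 2 ≤ x → x ≤ b → N D G c x ^ (2 ^ (k + 1)) ≤ B := by
        intro x hx1 hx2
        have h2 := N_conv hD hG c x (b - x)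
        rw [add_sub_cancel] at h2
        have h3 : N D G c x ^ 2 ≤ N D G c (x - (b - x)) := by
          refine h2.trans ?_
          calc _ ≤ 1 * N D G c (x - (b - x)) := mul_le_mul_of_nonneg_right h1 (hN0 _)
            _ = _ := one_mul _
        calc N D G c x ^ (2 ^ (k + 1)) = (N D G c x ^ 2) ^ (2 ^ k) := by
              rw [← pow_mul, pow_succ, mul_comm]
          _ ≤ N D G c (x - (b - x)) ^ (2 ^ k) := pow_le_pow_left₀ (by positivity) h3 _
          _ ≤ B := ih _ (by linarith) (by linarith)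
      rcases le_total (-c / 2) x with h | h
      · exact hstep x h hx2
      · rw [N_symm hG]
        exact hstep (-x - c) (by linarith) (by linarith)
  by_contra hcon
  push Not at hcon
  have h4 : Filter.Tendsto (fun k : ℕ => N D G c x ^ (2 ^ k)) Filter.atTop Filter.atTop := by
    have h5 := tendsto_pow_atTop_atTop_of_one_lt hcon
    exact h5.comp (tendsto_pow_atTop_atTop_of_one_lt (by norm_num : (1 : ℕ) < 2))
  obtain ⟨k, hk⟩ := (h4.eventually_gt_atTop B).exists
  exact absurd (hkey k x hx1 hx2) (not_le.mpr hk)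

/-- the operator inequality -/
theorem op_ineq {G X : A} (hG : IsStrictlyPositive G) (hX : IsStrictlyPositive X) {s : ℝ}
    (hs0 : 0 < s) (hs1 : s ≤ 1) (h : (G * X * G) ^ s ≤ X) : G ^ (2 * s) ≤ X ^ (1 - s) := by
  have hGsa : IsSelfAdjoint G := IsSelfAdjoint.of_nonneg hG.nonneg
  have hGXG : IsStrictlyPositive (G * X * G) := by
    have h1 : 0 ≤ G * X * G := by
      have := star_left_conjugate_nonneg hX.nonneg G
      rwa [hGsa.star_eq] at this
    rw [IsStrictlyPositive.iff_of_unital]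
    exact ⟨h1, (hG.isUnit.mul hX.isUnit).mul hG.isUnit⟩
  set D := (G * X * G) ^ s with hDdef
  have hD : IsStrictlyPositive D := IsStrictlyPositive.rpow _ _ hGXG
  have hU := hD.isUnit
  have hDs : D ^ (1 / s) = G * X * G := by
    rw [hDdef, CFC.rpow_rpow _ _ _ hs0.ne' hGXG, mul_one_div_cancel hs0.ne',
      CFC.rpow_one _ hGXG.nonneg]
  set c := (1 / s - 1) / 2 with hc
  have hc0 : 0 ≤ c := by
    rw [hc]
    have : 1 ≤ 1 / s := by rw [le_div_iff₀ hs0]; linarith
    linarith
  -- the norm bound at one half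
  have h1 : N D G c (1 / 2) ≤ 1 := by
    have e1 : G * D * G ≤ D ^ (1 / s) := by
      rw [hDs]
      have := star_left_conjugate_le_conjugate h G
      rwa [hGsa.star_eq] at this
    have e2 : D ^ (-(1 / 2) - c) * (G * D * G) * D ^ (-(1 / 2) - c) ≤ 1 := by
      have := star_left_conjugate_le_conjugate e1 (D ^ (-(1 / 2) - c))
      rw [sa_rpow] at this
      refine this.trans (le_of_eq ?_)
      rw [← CFC.rpow_add hU, ← CFC.rpow_add hU, ← CFC.rpow_zero D hD.nonneg]
      congr 1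
      rw [hc]
      ring
    have e3 : N D G c (1 / 2) ^ 2 ≤ 1 := by
      have e4 : N D G c (1 / 2) ^ 2 = ‖D ^ (-(1 / 2) - c) * (G * D * G) * D ^ (-(1 / 2) - c)‖ := by
        rw [N, sq, ← CStarRing.norm_star_mul_self, star_mul, star_mul, sa_rpow, sa_rpow,
          hGsa.star_eq]
        congr 1
        have e5 : D = D ^ (1 / 2 : ℝ) * D ^ (1 / 2 : ℝ) := by
          rw [← CFC.rpow_add hU]
          norm_num
          exact (CFC.rpow_one D hD.nonneg).symm
        conv_rhs => rw [show G * D * G = G * (D ^ (1 / 2 : ℝ) * D ^ (1 / 2 : ℝ)) * G by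
          rw [← e5]]
        noncomm_ring
      rw [e4]
      apply (CStarAlgebra.norm_le_one_iff_of_nonneg _ _).mpr e2
      have e6 : 0 ≤ G * D * G := by
        have := star_left_conjugate_nonneg hD.nonneg G
        rwa [hGsa.star_eq] at this
      have := star_left_conjugate_nonneg e6 (D ^ (-(1 / 2) - c))
      rwa [sa_rpow] at this
    have := norm_nonneg (D ^ (1 / 2 : ℝ) * G * D ^ (-(1 / 2) - c))
    have e7 : 0 ≤ N D G c (1 / 2) := this
    nlinarith
  have h2 : N D G c 0 ≤ 1 := N_le_one hD hGsa hc0 h1 (by linarith) (by norm_num)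
  -- hence `G ^ 2 ≤ D ^ (2 c)`
  have h3 : D ^ (-c) * (G * G) * D ^ (-c) ≤ 1 := by
    apply (CStarAlgebra.norm_le_one_iff_of_nonneg _ _).mp
    · have e4 : ‖D ^ (-c) * (G * G) * D ^ (-c)‖ = N D G c 0 ^ 2 := by
        rw [N, sq, ← CStarRing.norm_star_mul_self, star_mul, star_mul, sa_rpow, sa_rpow,
          hGsa.star_eq, CFC.rpow_zero D hD.nonneg, neg_zero, zero_sub]
        congr 1
        noncomm_ring
      rw [e4]
      have e7 : 0 ≤ N D G c 0 := norm_nonneg _
      nlinarith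
    · have e6 : 0 ≤ G * G := by
        have := star_mul_self_nonneg G
        rwa [hGsa.star_eq] at this
      have := star_left_conjugate_nonneg e6 (D ^ (-c))
      rwa [sa_rpow] at this
  have h4 : G * G ≤ D ^ (1 / s - 1) := by
    have := star_left_conjugate_le_conjugate h3 (D ^ c)
    rw [sa_rpow] at this
    have e1 : D ^ c * (D ^ (-c) * (G * G) * D ^ (-c)) * D ^ c = G * G := by
      calc _ = (D ^ c * D ^ (-c)) * (G * G) * (D ^ (-c) * D ^ c) := by noncomm_ring
        _ = _ := by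
          rw [CFC.rpow_mul_rpow_neg c hD, CFC.rpow_neg_mul_rpow c hD, one_mul, mul_one]
    have e2 : D ^ c * 1 * D ^ c = D ^ (1 / s - 1) := by
      rw [mul_one, ← CFC.rpow_add hU]
      congr 1
      rw [hc]; ring
    rwa [e1, e2] at this
  have h5 : (G * G) ^ s ≤ (D ^ (1 / s - 1)) ^ s := CFC.rpow_le_rpow ⟨hs0.le, hs1⟩ h4
  have h6 : (G * G) ^ s = G ^ (2 * s) := by
    have e1 : G * G = G ^ (2 : ℝ) := by
      have := CFC.rpow_natCast G 2 hG.nonneg
      rw [← sq, ← this]
      norm_num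
    rw [e1, CFC.rpow_rpow _ _ _ (by norm_num) hG]
  have h7 : (D ^ (1 / s - 1)) ^ s = D ^ (1 - s) := by
    rw [CFC.rpow_rpow_of_exponent_nonneg _ _ _ (by linarith) hs0.le hD.nonneg]
    congr 1
    field_simp
  rw [h6, h7] at h5
  exact h5.trans (CFC.rpow_le_rpow ⟨by linarith, by linarith⟩ h)

end Q170.DetIneq
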